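import Pool.Agent.helper78.ED.Defs

/-!
Module GS of project ED: sum over well spaced points and integral.
-/

set_option autoImplicit false

open Complex MeasureTheory

namespace Pool.Agent.helper78.ED

open Pool.Agent.helper84.DM

theorem GS_exp (x : ℝ) (hx : 0 ≤ x) : Real.exp (-x ^ 2) ≤ (1 / 2 : ℝ) ^ ⌊x⌋₊ := by
  have h1 : ((⌊x⌋₊ : ℕ) : ℝ) ≤ x := Nat.floor_le hx
  have h2 : ((⌊x⌋₊ : ℕ) : ℝ) ≤ x ^ 2 := by
    rcases Nat.eq_zero_or_pos ⌊x⌋₊ with h0 | h0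
    · rw [h0]
      simp only [Nat.cast_zero]
      positivity
    · have h3 : (1 : ℝ) ≤ ((⌊x⌋₊ : ℕ) : ℝ) := by exact_mod_cast h0
      nlinarith
  have h3 : Real.exp (-x ^ 2) ≤ Real.exp (((⌊x⌋₊ : ℕ) : ℝ) * (-1)) :=
    Real.exp_le_exp.2 (by linarith)
  have h4 : Real.exp (-1) ≤ 1 / 2 := by
    rw [Real.exp_neg, one_div]
    refine inv_anti₀ (by norm_num) ?_
    have := Real.add_one_le_exp (1 : ℝ)
    linarith
  rw [Real.exp_nat_mul] at h3
  exact h3.trans (pow_le_pow_left₀ (Real.exp_pos _).le h4 _)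

open Classical in
theorem GS_window {a b K : ℝ} (hab : a ≤ b) (Z : Finset ℂ) (hZ : ∀ ρ ∈ Z, a ≤ ρ.im ∧ ρ.im ≤ b)
    (hK : ∀ t : ℝ, a ≤ t → t ≤ b → (loc Z t : ℝ) ≤ K) (t : ℝ) :
    (((Z.filter (fun z => t ≤ z.im ∧ z.im ≤ t + 1)).card : ℕ) : ℝ) ≤ K := by
  have hK0 : 0 ≤ K := (Nat.cast_nonneg _).trans (hK a le_rfl hab)
  rcases lt_or_ge t a with hta | hta
  · refine le_trans ?_ (hK a le_rfl hab)
    unfold loc
    rw [Nat.cast_le]
    refine Finset.card_le_card (fun z hz => ?_)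
    rw [Finset.mem_filter] at hz ⊢
    exact ⟨hz.1, (hZ z hz.1).1, by linarith [hz.2.2]⟩
  · rcases le_or_gt t b with htb | htb
    · exact hK t hta htb
    · have : Z.filter (fun z => t ≤ z.im ∧ z.im ≤ t + 1) = ∅ := by
        rw [Finset.filter_eq_empty_iff]
        intro z hz h
        linarith [(hZ z hz).2, h.1]
      rw [this]
      simpa using hK0

theorem GS_point {a b K : ℝ} (hab : a ≤ b) (Z : Finset ℂ) (hZ : ∀ ρ ∈ Z, a ≤ ρ.im ∧ ρ.im ≤ b)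
    (hK : ∀ t : ℝ, a ≤ t → t ≤ b → (loc Z t : ℝ) ≤ K) (u : ℝ) :
    ∑ ρ ∈ Z, Real.exp (-(u - ρ.im) ^ 2) ≤ 8 * K := by
  classical
  have hK0 : 0 ≤ K := (Nat.cast_nonneg _).trans (hK a le_rfl hab)
  set key : ℂ → ℕ := fun ρ => ⌊|u - ρ.im|⌋₊ with hkey
  have h1 : ∑ ρ ∈ Z, Real.exp (-(u - ρ.im) ^ 2) ≤ ∑ ρ ∈ Z, (1 / 2 : ℝ) ^ key ρ := by
    refine Finset.sum_le_sum (fun ρ _ => ?_)
    have := GS_exp |u - ρ.im| (abs_nonneg _)
    rwa [sq_abs] at this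
  have h2 : ∑ ρ ∈ Z, (1 / 2 : ℝ) ^ key ρ
      = ∑ j ∈ Finset.range (Z.sup key + 1), ∑ ρ ∈ Z.filter (fun ρ => key ρ = j), (1 / 2 : ℝ) ^ key ρ := by
    refine (Finset.sum_fiberwise_of_maps_to (fun ρ hρ => ?_) _).symm
    rw [Finset.mem_range]
    exact Nat.lt_succ_of_le (Finset.le_sup hρ)
  have h3 : ∀ j : ℕ, (((Z.filter (fun ρ => key ρ = j)).card : ℕ) : ℝ) ≤ 2 * K := by
    intro j
    have hsub : Z.filter (fun ρ => key ρ = j) ⊆
        Z.filter (fun z => u + j ≤ z.im ∧ z.im ≤ (u + j) + 1) ∪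
          Z.filter (fun z => u - j - 1 ≤ z.im ∧ z.im ≤ (u - j - 1) + 1) := by
      intro ρ hρ
      rw [Finset.mem_filter] at hρ
      rw [Finset.mem_union, Finset.mem_filter, Finset.mem_filter]
      obtain ⟨hρZ, hρj⟩ := hρ
      have e1 : ((⌊|u - ρ.im|⌋₊ : ℕ) : ℝ) ≤ |u - ρ.im| := Nat.floor_le (abs_nonneg _)
      have e2 : |u - ρ.im| < ((⌊|u - ρ.im|⌋₊ : ℕ) : ℝ) + 1 := Nat.lt_floor_add_one _
      have e3 : ⌊|u - ρ.im|⌋₊ = j := hρj
      rw [e3] at e1 e2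
      rcases le_total 0 (u - ρ.im) with hs | hs
      · rw [abs_of_nonneg hs] at e1 e2
        exact Or.inr ⟨hρZ, by linarith, by linarith⟩
      · rw [abs_of_nonpos hs] at e1 e2
        exact Or.inl ⟨hρZ, by linarith, by linarith⟩
    have hc := (Finset.card_le_card hsub).trans (Finset.card_union_le _ _)
    have w1 := GS_window hab Z hZ hK (u + j)
    have w2 := GS_window hab Z hZ hK (u - j - 1)
    have hc' : (((Z.filter (fun ρ => key ρ = j)).card : ℕ) : ℝ) ≤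
        (((Z.filter (fun z => u + j ≤ z.im ∧ z.im ≤ (u + j) + 1)).card : ℕ) : ℝ) +
          (((Z.filter (fun z => u - j - 1 ≤ z.im ∧ z.im ≤ (u - j - 1) + 1)).card : ℕ) : ℝ) := by
      exact_mod_cast hc
    linarith
  have h4 : ∑ j ∈ Finset.range (Z.sup key + 1),
      ∑ ρ ∈ Z.filter (fun ρ => key ρ = j), (1 / 2 : ℝ) ^ key ρ
      ≤ ∑ j ∈ Finset.range (Z.sup key + 1), (2 * K) * (1 / 2 : ℝ) ^ j := by
    refine Finset.sum_le_sum (fun j _ => ?_)
    have e1 : ∑ ρ ∈ Z.filter (fun ρ => key ρ = j), (1 / 2 : ℝ) ^ key ρ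
        = ∑ _ρ ∈ Z.filter (fun ρ => key ρ = j), (1 / 2 : ℝ) ^ j := by
      refine Finset.sum_congr rfl (fun ρ hρ => ?_)
      rw [(Finset.mem_filter.1 hρ).2]
    rw [e1, Finset.sum_const, nsmul_eq_mul]
    exact mul_le_mul_of_nonneg_right (h3 j) (by positivity)
  have h5 : ∑ j ∈ Finset.range (Z.sup key + 1), (1 / 2 : ℝ) ^ j ≤ 2 := by
    have hs : Summable (fun j : ℕ => (1 / 2 : ℝ) ^ j) := summable_geometric_two
    have := hs.sum_le_tsum (Finset.range (Z.sup key + 1)) (fun j _ => by positivity)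
    rwa [tsum_geometric_two] at this
  rw [← Finset.mul_sum] at h4
  have h6 : (2 * K) * ∑ j ∈ Finset.range (Z.sup key + 1), (1 / 2 : ℝ) ^ j ≤ (2 * K) * 2 :=
    mul_le_mul_of_nonneg_left h5 (by linarith)
  calc ∑ ρ ∈ Z, Real.exp (-(u - ρ.im) ^ 2) ≤ ∑ ρ ∈ Z, (1 / 2 : ℝ) ^ key ρ := h1
    _ ≤ (2 * K) * 2 := by rw [h2]; exact h4.trans h6
    _ ≤ 8 * K := by linarith

theorem gauss_sum {f : ℝ → ℝ} {a b V K : ℝ} (hab : a ≤ b) (hV : 0 ≤ V)
    (hf : ContinuousOn f (Set.Icc (a - V) (b + V))) (hf0 : ∀ u, 0 ≤ f u) (Z : Finset ℂ)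
    (hZ : ∀ ρ ∈ Z, a ≤ ρ.im ∧ ρ.im ≤ b) (hK : ∀ t : ℝ, a ≤ t → t ≤ b → (loc Z t : ℝ) ≤ K) :
    ∑ ρ ∈ Z, ∫ v in (-V)..V, f (ρ.im + v) * Real.exp (-v ^ 2)
      ≤ 8 * K * ∫ u in (a - V)..(b + V), f u := by
  have hle : a - V ≤ b + V := by linarith
  have hgc : ∀ γ : ℝ, ContinuousOn (fun u => f u * Real.exp (-(u - γ) ^ 2))
      (Set.Icc (a - V) (b + V)) := by
    intro γ
    refine hf.mul (Continuous.continuousOn ?_)
    fun_prop
  have hgi : ∀ γ : ℝ, IntervalIntegrable (fun u => f u * Real.exp (-(u - γ) ^ 2)) volume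
      (a - V) (b + V) := by
    intro γ
    refine ContinuousOn.intervalIntegrable ?_
    rw [Set.uIcc_of_le hle]
    exact hgc γ
  have h1 : ∀ ρ ∈ Z, ∫ v in (-V)..V, f (ρ.im + v) * Real.exp (-v ^ 2)
      ≤ ∫ u in (a - V)..(b + V), f u * Real.exp (-(u - ρ.im) ^ 2) := by
    intro ρ hρ
    obtain ⟨ha, hb⟩ := hZ ρ hρ
    have e1 : ∫ v in (-V)..V, f (ρ.im + v) * Real.exp (-v ^ 2)
        = ∫ u in (ρ.im + -V)..(ρ.im + V), f u * Real.exp (-(u - ρ.im) ^ 2) := by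
      rw [← intervalIntegral.integral_comp_add_left
        (fun u => f u * Real.exp (-(u - ρ.im) ^ 2)) ρ.im]
      refine intervalIntegral.integral_congr (fun v _ => ?_)
      simp
    rw [e1]
    refine intervalIntegral.integral_mono_interval (by linarith) (by linarith) (by linarith) ?_
      (hgi ρ.im)
    exact Filter.Eventually.of_forall (fun u => mul_nonneg (hf0 u) (Real.exp_pos _).le)
  refine (Finset.sum_le_sum h1).trans ?_
  rw [← intervalIntegral.integral_finsetSum (fun ρ _ => hgi ρ.im),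
    ← intervalIntegral.integral_const_mul]
  have hfi : IntervalIntegrable f volume (a - V) (b + V) := by
    refine ContinuousOn.intervalIntegrable ?_
    rw [Set.uIcc_of_le hle]
    exact hf
  refine intervalIntegral.integral_mono_on hle ?_ (hfi.const_mul _) (fun u _ => ?_)
  · have := IntervalIntegrable.sum (μ := volume) (a := a - V) (b := b + V) Z
      (f := fun ρ u => f u * Real.exp (-(u - ρ.im) ^ 2)) (fun ρ _ => hgi ρ.im)
    refine this.congr (fun u _ => ?_)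
    simp
  · rw [← Finset.mul_sum, mul_comm]
    exact mul_le_mul_of_nonneg_right (GS_point hab Z hZ hK u) (hf0 u)

end Pool.Agent.helper78.ED
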