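import Pool.Agent.helper78.ED.Defs
import Pool.Agent.helper44.DM.ZG
import Pool.Agent.helper91.DM.CT

/-!
Module SB of project ED: the smooth zeta sum on the critical line.
-/

set_option autoImplicit false

open Complex MeasureTheory

namespace Pool.Agent.helper78.ED

open Pool.Agent.helper84.DM

/-- the kernel `M^w e^(w^2)` at `w = c + i v` -/
noncomputable def SB_K (M c v : ℝ) : ℂ :=
  (M : ℂ) ^ ((c : ℂ) + v * I) * Complex.exp (((c : ℂ) + v * I) ^ 2)

theorem SB_K_norm {M : ℝ} (c : ℝ) (hM : 0 < M) (v : ℝ) :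
    ‖SB_K M c v‖ = M ^ c * Real.exp (c ^ 2) * Real.exp (-v ^ 2) := by
  unfold SB_K
  rw [norm_mul, Complex.norm_cpow_eq_rpow_re_of_pos hM, Complex.norm_exp]
  have e1 : ((c : ℂ) + v * I).re = c := by simp
  have e2 : (((c : ℂ) + v * I) ^ 2).re = c ^ 2 + -v ^ 2 := by
    rw [pow_two, Complex.mul_re]
    simp
    ring
  rw [e1, e2, Real.exp_add, mul_assoc]

theorem SB_K_cont {M : ℝ} (c : ℝ) (hM : 0 < M) : Continuous (fun v => SB_K M c v) := by
  unfold SB_K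
  refine Continuous.mul ?_ (by fun_prop)
  refine Continuous.const_cpow (by fun_prop) (Or.inl ?_)
  exact_mod_cast hM.ne'

theorem SB_gauss {M : ℝ} (hM : 0 < M) (s : ℂ) (n : ℕ) (hn : 1 ≤ n) :
    ∫ v : ℝ, (n : ℂ) ^ (-(s + (((2 : ℝ) : ℂ) + v * I))) * SB_K M 2 v
      = ((Real.sqrt Real.pi : ℝ) : ℂ) * ((wg M n : ℂ) * (n : ℂ) ^ (-s)) := by
  have hn0 : (n : ℂ) ≠ 0 := by
    have : n ≠ 0 := by omega
    exact_mod_cast this
  have hM0 : (M : ℂ) ≠ 0 := by exact_mod_cast hM.ne'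
  have hnr : (0 : ℝ) < n := by exact_mod_cast hn
  set x : ℝ := Real.log ((n : ℝ) / M) with hx
  have hx' : x = Real.log n - Real.log M := by rw [hx, Real.log_div hnr.ne' hM.ne']
  have h1 : ∀ v : ℝ, (n : ℂ) ^ (-(s + (((2 : ℝ) : ℂ) + v * I))) * SB_K M 2 v
      = (n : ℂ) ^ (-s) * Complex.exp ((-1 : ℂ) * (v : ℂ) ^ 2 + (I * (4 - (x : ℂ))) * v + (4 - 2 * (x : ℂ))) := by
    intro v
    unfold SB_K
    rw [Complex.cpow_def_of_ne_zero hn0, Complex.cpow_def_of_ne_zero hM0,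
      Complex.cpow_def_of_ne_zero hn0, ← Complex.natCast_log, ← Complex.ofReal_log hM.le,
      ← Complex.exp_add, ← Complex.exp_add, ← Complex.exp_add]
    congr 1
    rw [hx']
    push_cast
    linear_combination (v : ℂ) ^ 2 * Complex.I_sq
  simp only [h1]
  rw [integral_const_mul, integral_cexp_quadratic (by simp)]
  have h2 : ((Real.pi : ℂ) / -(-1)) ^ (1 / 2 : ℂ) = ((Real.sqrt Real.pi : ℝ) : ℂ) := by
    rw [Real.sqrt_eq_rpow, Complex.ofReal_cpow Real.pi_pos.le]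
    norm_num
  have h3 : (4 : ℂ) - 2 * (x : ℂ) - (I * (4 - (x : ℂ))) ^ 2 / (4 * (-1)) = ((-x ^ 2 / 4 : ℝ) : ℂ) := by
    push_cast
    linear_combination ((4 - (x : ℂ)) ^ 2 / 4) * Complex.I_sq
  rw [h2, h3, ← Complex.ofReal_exp]
  have h4 : wg M n = Real.exp (-x ^ 2 / 4) := by
    unfold wg
    rw [if_neg (by omega), hx]
  rw [h4]
  ring

theorem SB_term_norm {M : ℝ} (hM : 0 < M) (s : ℂ) (n : ℕ) (hn : 1 ≤ n) (v : ℝ) :
    ‖(n : ℂ) ^ (-(s + (((2 : ℝ) : ℂ) + v * I))) * SB_K M 2 v‖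
      = (n : ℝ) ^ (-(s.re + 2)) * (M ^ (2 : ℝ) * Real.exp ((2 : ℝ) ^ 2)) * Real.exp (-v ^ 2) := by
  rw [norm_mul, SB_K_norm 2 hM, Complex.norm_natCast_cpow_of_pos (by omega)]
  have : (-(s + (((2 : ℝ) : ℂ) + v * I))).re = -(s.re + 2) := by simp
  rw [this]
  ring

theorem SB_gint : Integrable (fun v : ℝ => Real.exp (-v ^ 2)) := by
  have := integrable_exp_neg_mul_sq (b := 1) one_pos
  simpa using this

theorem SB_term_zero (M : ℝ) (s : ℂ) (hs : 0 ≤ s.re) (v : ℝ) :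
    ((0 : ℕ) : ℂ) ^ (-(s + (((2 : ℝ) : ℂ) + v * I))) * SB_K M 2 v = 0 := by
  rw [Nat.cast_zero, Complex.zero_cpow, zero_mul]
  intro h
  have := congrArg Complex.re h
  simp at this
  linarith

theorem SB_term_int {M : ℝ} (hM : 0 < M) (s : ℂ) (hs : 0 ≤ s.re) (n : ℕ) :
    Integrable (fun v : ℝ => (n : ℂ) ^ (-(s + (((2 : ℝ) : ℂ) + v * I))) * SB_K M 2 v) := by
  rcases Nat.eq_zero_or_pos n with h0 | h0
  · subst h0
    simp only [SB_term_zero M s hs]
    exact integrable_zero _ _ _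
  · have hn0 : (n : ℂ) ≠ 0 := by
      have : n ≠ 0 := by omega
      exact_mod_cast this
    refine Integrable.mono' (SB_gint.const_mul
      ((n : ℝ) ^ (-(s.re + 2)) * (M ^ (2 : ℝ) * Real.exp ((2 : ℝ) ^ 2)))) ?_ ?_
    · refine Continuous.aestronglyMeasurable ?_
      refine Continuous.mul ?_ (SB_K_cont 2 hM)
      exact Continuous.const_cpow (by fun_prop) (Or.inl hn0)
    · exact Filter.Eventually.of_forall (fun v => (SB_term_norm hM s n h0 v).le)

/-- the integral representation -/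
theorem SB_repr {M : ℝ} (hM : 0 < M) (s : ℂ) (hs : 0 ≤ s.re) :
    ∫ v : ℝ, riemannZeta (s + (((2 : ℝ) : ℂ) + v * I)) * SB_K M 2 v
      = ((Real.sqrt Real.pi : ℝ) : ℂ) * ∑' n : ℕ, (wg M n : ℂ) * (n : ℂ) ^ (-s) := by
  have hsum : Summable (fun n : ℕ => ∫ v : ℝ,
      ‖(n : ℂ) ^ (-(s + (((2 : ℝ) : ℂ) + v * I))) * SB_K M 2 v‖) := by
    have h1 : Summable (fun n : ℕ => (n : ℝ) ^ (-(s.re + 2)) *
        ((M ^ (2 : ℝ) * Real.exp ((2 : ℝ) ^ 2)) * ∫ v : ℝ, Real.exp (-v ^ 2))) := by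
      refine Summable.mul_right _ ?_
      rw [Real.summable_nat_rpow]
      linarith
    refine h1.congr (fun n => ?_)
    rcases Nat.eq_zero_or_pos n with h0 | h0
    · subst h0
      have e : ∫ v : ℝ, ‖((0 : ℕ) : ℂ) ^ (-(s + (((2 : ℝ) : ℂ) + v * I))) * SB_K M 2 v‖ = 0 := by
        have e1 : ∀ v : ℝ,
            ‖((0 : ℕ) : ℂ) ^ (-(s + (((2 : ℝ) : ℂ) + v * I))) * SB_K M 2 v‖ = 0 := fun v => by
          rw [SB_term_zero M s hs, norm_zero]
        simp only [e1, integral_zero]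
      rw [e, Nat.cast_zero, Real.zero_rpow (by linarith), zero_mul]
    · simp only [SB_term_norm hM s n h0]
      rw [integral_const_mul]
      ring
  have h2 := hasSum_integral_of_summable_integral_norm (SB_term_int hM s hs) hsum
  have h3 : ∀ v : ℝ, ∑' n : ℕ, (n : ℂ) ^ (-(s + (((2 : ℝ) : ℂ) + v * I))) * SB_K M 2 v
      = riemannZeta (s + (((2 : ℝ) : ℂ) + v * I)) * SB_K M 2 v := by
    intro v
    rw [tsum_mul_right, zeta_eq_tsum_one_div_nat_cpow (by simp; linarith)]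
    congr 1
    refine tsum_congr (fun n => ?_)
    rw [Complex.cpow_neg, one_div]
  simp only [h3] at h2
  rw [← h2.tsum_eq, ← tsum_mul_left]
  refine tsum_congr (fun n => ?_)
  rcases Nat.eq_zero_or_pos n with h0 | h0
  · subst h0
    simp only [SB_term_zero M s hs, integral_zero]
    simp [wg]
  · exact SB_gauss hM s n h0

theorem SB_gauss2 : ∫ v : ℝ, Real.exp (-v ^ 2 / 2) ≤ 3 := by
  have h := integral_gaussian (1 / 2)
  have h1 : ∀ v : ℝ, Real.exp (-(1 / 2) * v ^ 2) = Real.exp (-v ^ 2 / 2) := fun v => by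
    congr 1
    ring
  simp only [h1] at h
  rw [h]
  rw [Real.sqrt_le_left (by norm_num)]
  have := Real.pi_le_four
  rw [div_le_iff₀ (by norm_num)]
  linarith

theorem SB_gint2 : Integrable (fun v : ℝ => Real.exp (-v ^ 2 / 2)) := by
  have := integrable_exp_neg_mul_sq (b := 1 / 2) (by norm_num)
  refine this.congr (Filter.Eventually.of_forall (fun v => ?_))
  simp only
  congr 1
  ring

/-- cutting the tails of an integral with Gaussian decay -/
theorem SB_tail {g : ℝ → ℂ} (hg : Continuous g) {B V : ℝ} (hB : 0 ≤ B) (hV : 0 ≤ V)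
    (hgB : ∀ v, ‖g v‖ ≤ B * Real.exp (-v ^ 2)) :
    ‖∫ v : ℝ, g v‖ ≤ ‖∫ v in (-V)..V, g v‖ + 3 * B * Real.exp (-V ^ 2 / 2) := by
  have hint : Integrable g := Integrable.mono' (SB_gint.const_mul B) hg.aestronglyMeasurable
    (Filter.Eventually.of_forall hgB)
  have h1 := integral_add_compl (s := Set.Ioc (-V) V) measurableSet_Ioc hint
  rw [← h1, intervalIntegral.integral_of_le (by linarith)]
  refine (norm_add_le _ _).trans ?_
  have h2 : ‖∫ v in (Set.Ioc (-V) V)ᶜ, g v‖ ≤ 3 * B * Real.exp (-V ^ 2 / 2) := by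
    have h3 : ‖∫ v in (Set.Ioc (-V) V)ᶜ, g v‖
        ≤ ∫ v in (Set.Ioc (-V) V)ᶜ, (B * Real.exp (-V ^ 2 / 2)) * Real.exp (-v ^ 2 / 2) := by
      refine norm_integral_le_of_norm_le ((SB_gint2.const_mul _).integrableOn) ?_
      refine (ae_restrict_iff' measurableSet_Ioc.compl).2 (Filter.Eventually.of_forall (fun v hv => ?_))
      refine (hgB v).trans ?_
      rw [mul_assoc, ← Real.exp_add]
      refine mul_le_mul_of_nonneg_left (Real.exp_le_exp.2 ?_) hB
      have hv2 : V ^ 2 ≤ v ^ 2 := by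
        rw [Set.mem_compl_iff, Set.mem_Ioc, not_and_or, not_lt, not_le] at hv
        rcases hv with hv | hv
        · nlinarith
        · nlinarith
      linarith
    have h4 : ∫ v in (Set.Ioc (-V) V)ᶜ, (B * Real.exp (-V ^ 2 / 2)) * Real.exp (-v ^ 2 / 2)
        ≤ ∫ v : ℝ, (B * Real.exp (-V ^ 2 / 2)) * Real.exp (-v ^ 2 / 2) :=
      setIntegral_le_integral (SB_gint2.const_mul _)
        (Filter.Eventually.of_forall fun v => by positivity)
    have h6 : ∫ v : ℝ, (B * Real.exp (-V ^ 2 / 2)) * Real.exp (-v ^ 2 / 2)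
        = (B * Real.exp (-V ^ 2 / 2)) * ∫ v : ℝ, Real.exp (-v ^ 2 / 2) := integral_const_mul _ _
    rw [h6] at h4
    have h5 : (B * Real.exp (-V ^ 2 / 2)) * ∫ v : ℝ, Real.exp (-v ^ 2 / 2)
        ≤ (B * Real.exp (-V ^ 2 / 2)) * 3 := mul_le_mul_of_nonneg_left SB_gauss2 (by positivity)
    calc ‖∫ v in (Set.Ioc (-V) V)ᶜ, g v‖ ≤ (B * Real.exp (-V ^ 2 / 2)) * 3 := (h3.trans h4).trans h5
      _ = 3 * B * Real.exp (-V ^ 2 / 2) := by ring
  linarith

theorem SB_zt_cont (η τ : ℝ) (hη1 : η ≤ 1 / 8) :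
    Continuous (fun v : ℝ => ‖riemannZeta (((1 / 2 + η : ℝ) : ℂ) + (τ + v : ℝ) * I)‖) := by
  refine Continuous.norm ?_
  rw [continuous_iff_continuousAt]
  intro v
  have hne : (((1 / 2 + η : ℝ) : ℂ) + (τ + v : ℝ) * I) ≠ 1 := by
    intro h
    have := congrArg Complex.re h
    simp at this
    linarith
  have h1 : ContinuousAt (fun v : ℝ => (((1 / 2 + η : ℝ) : ℂ) + (τ + v : ℝ) * I)) v := by
    fun_prop
  exact ContinuousAt.comp (f := fun v : ℝ => (((1 / 2 + η : ℝ) : ℂ) + (τ + v : ℝ) * I))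
    (differentiableAt_riemannZeta hne).continuousAt h1

theorem SB_zt_nonneg (η V τ : ℝ) (hV : 0 ≤ V) : 0 ≤ Zt η V τ := by
  unfold Zt
  refine intervalIntegral.integral_nonneg (by linarith) (fun v _ => ?_)
  positivity

theorem SB_pos (η : ℝ) (hη : 0 < η) (hη1 : η ≤ 1 / 8) : ∃ C T₀ : ℝ, 0 < C ∧ 1 ≤ T₀ ∧
    ∀ T : ℝ, T₀ ≤ T →
    ∀ M z τ : ℝ, 1 ≤ M → M ≤ T ^ (6 : ℕ) → 0 ≤ z → z ≤ 1 → Real.log T ≤ τ → τ ≤ T →
      ‖SS M z τ‖ ≤ C * M ^ (1 / 2 + η) * (1 + Zt η (τ / 2) τ) := by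
  obtain ⟨C0, hC0, hr⟩ := zeta_right
  obtain ⟨C1, hC1, hp⟩ := zeta_poly
  refine ⟨3 * (Real.exp C0 * Real.exp 4) + 40 * C1 * Real.exp 4 + Real.exp 1, Real.exp 96,
    by positivity, Real.one_le_exp (by norm_num), ?_⟩
  intro T hT M z τ hM hMT hz hz1 hτ1 hτ2
  have hT0 : 0 < T := (Real.exp_pos _).trans_le hT
  have hM0 : 0 < M := by linarith
  set L : ℝ := Real.log T with hL
  have hL96 : 96 ≤ L := by
    rw [hL, Real.le_log_iff_exp_le hT0]
    exact hT
  have hTL : T = Real.exp L := (Real.exp_log hT0).symm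
  have hT1 : 1 ≤ T := (Real.one_le_exp (by norm_num : (0 : ℝ) ≤ 96)).trans hT
  set V : ℝ := τ / 2 with hV
  have hV48 : 48 ≤ V := by rw [hV]; linarith
  have hV0 : 0 ≤ V := by linarith
  -- powers of T against the Gaussian
  have hM2 : M ^ (2 : ℝ) ≤ Real.exp (12 * L) := by
    rw [Real.rpow_two]
    calc M ^ 2 ≤ (T ^ (6 : ℕ)) ^ 2 := pow_le_pow_left₀ hM0.le hMT 2
      _ = T ^ 12 := by ring
      _ = Real.exp (12 * L) := by
        rw [hTL, ← Real.exp_nat_mul]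
        norm_num
  have hT3 : T ^ 3 = Real.exp (3 * L) := by
    rw [hTL, ← Real.exp_nat_mul]
    norm_num
  have hVL : L ^ 2 ≤ 4 * V ^ 2 := by
    have : L ≤ 2 * V := by rw [hV]; linarith
    nlinarith
  set s : ℂ := (z : ℂ) + τ * I with hs
  have hsre : s.re = z := by rw [hs]; simp
  have hsim : s.im = τ := by rw [hs]; simp
  have hrep := SB_repr hM0 s (by rw [hsre]; exact hz)
  have hSS : SS M z τ = ∑' n : ℕ, (wg M n : ℂ) * (n : ℂ) ^ (-s) := rfl
  rw [← hSS] at hrep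
  set G : ℂ → ℂ := fun w => riemannZeta (s + w) * ((M : ℂ) ^ w * Complex.exp (w ^ 2)) with hG
  have hGK : ∀ c v : ℝ, G ((c : ℂ) + v * I) = riemannZeta (s + ((c : ℂ) + v * I)) * SB_K M c v := by
    intro c v
    rfl
  -- step 1: tails
  have hg2 : Continuous (fun v : ℝ => riemannZeta (s + (((2 : ℝ) : ℂ) + v * I)) * SB_K M 2 v) := by
    refine Continuous.mul ?_ (SB_K_cont 2 hM0)
    rw [continuous_iff_continuousAt]
    intro v
    have hne : s + (((2 : ℝ) : ℂ) + v * I) ≠ 1 := by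
      intro h
      have := congrArg Complex.re h
      simp [hsre] at this
      linarith
    have h1 : ContinuousAt (fun v : ℝ => s + (((2 : ℝ) : ℂ) + v * I)) v := by fun_prop
    exact ContinuousAt.comp (f := fun v : ℝ => s + (((2 : ℝ) : ℂ) + v * I))
      (differentiableAt_riemannZeta hne).continuousAt h1
  have hgB : ∀ v : ℝ, ‖riemannZeta (s + (((2 : ℝ) : ℂ) + v * I)) * SB_K M 2 v‖
      ≤ (Real.exp C0 * (M ^ (2 : ℝ) * Real.exp ((2 : ℝ) ^ 2))) * Real.exp (-v ^ 2) := by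
    intro v
    rw [norm_mul, SB_K_norm 2 hM0, mul_assoc (Real.exp C0)]
    refine mul_le_mul_of_nonneg_right ?_ (by positivity)
    refine (hr _ ?_).2
    simp only [add_re, ofReal_re, mul_re, I_re, mul_zero, ofReal_im, I_im, mul_one, sub_self, hsre]
    linarith
  have h1 := SB_tail hg2 (by positivity) hV0 hgB
  have h1' : 3 * (Real.exp C0 * (M ^ (2 : ℝ) * Real.exp ((2 : ℝ) ^ 2))) * Real.exp (-V ^ 2 / 2)
      ≤ 3 * (Real.exp C0 * Real.exp 4) := by
    have e1 : M ^ (2 : ℝ) * Real.exp (-V ^ 2 / 2) ≤ 1 := by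
      calc M ^ (2 : ℝ) * Real.exp (-V ^ 2 / 2) ≤ Real.exp (12 * L) * Real.exp (-V ^ 2 / 2) :=
            mul_le_mul_of_nonneg_right hM2 (Real.exp_pos _).le
        _ = Real.exp (12 * L + -V ^ 2 / 2) := (Real.exp_add _ _).symm
        _ ≤ 1 := by
          rw [Real.exp_le_one_iff]
          nlinarith
    have e2 : Real.exp ((2 : ℝ) ^ 2) = Real.exp 4 := by norm_num
    rw [e2]
    calc 3 * (Real.exp C0 * (M ^ (2 : ℝ) * Real.exp 4)) * Real.exp (-V ^ 2 / 2)
        = 3 * (Real.exp C0 * Real.exp 4) * (M ^ (2 : ℝ) * Real.exp (-V ^ 2 / 2)) := by ring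
      _ ≤ 3 * (Real.exp C0 * Real.exp 4) * 1 := mul_le_mul_of_nonneg_left e1 (by positivity)
      _ = 3 * (Real.exp C0 * Real.exp 4) := mul_one _
  -- step 2: shift
  set a : ℝ := 1 / 2 + η - z with ha
  have ha1 : -(1 / 2) ≤ a := by rw [ha]; linarith
  have ha2 : a ≤ 1 := by rw [ha]; linarith
  have hdiff : ∀ w : ℂ, a ≤ w.re → w.re ≤ 2 → |w.im| ≤ V → DifferentiableAt ℂ G w := by
    intro w _ _ hw3
    have hne : s + w ≠ 1 := by
      intro h
      have := congrArg Complex.im h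
      rw [add_im, hsim, one_im] at this
      have h3 := abs_le.1 hw3
      have : τ = 2 * V := by rw [hV]; ring
      linarith [h3.1]
    rw [hG]
    refine DifferentiableAt.mul ?_ (DifferentiableAt.mul ?_ (by fun_prop))
    · exact DifferentiableAt.comp w (differentiableAt_riemannZeta hne) (by fun_prop)
    · refine DifferentiableAt.const_cpow (by fun_prop) (Or.inl ?_)
      exact_mod_cast hM0.ne'
  have hhor : ∀ (x y : ℝ), a ≤ x → x ≤ 2 → (y = V ∨ y = -V) → ‖G ((x : ℂ) + y * I)‖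
      ≤ 8 * C1 * Real.exp 4 := by
    intro x y hx1 hx2 hy
    have hy2 : y ^ 2 = V ^ 2 := by rcases hy with h | h <;> rw [h]; ring
    have hyb : |y| ≤ V := by
      rcases hy with h | h
      · rw [h, abs_of_nonneg hV0]
      · rw [h, abs_neg, abs_of_nonneg hV0]
    have hyb' := abs_le.1 hyb
    rw [hGK, norm_mul, SB_K_norm x hM0]
    have him : (s + ((x : ℂ) + y * I)).im = τ + y := by
      rw [add_im, hsim]
      simp
    have hre : (s + ((x : ℂ) + y * I)).re = z + x := by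
      rw [add_re, hsre]
      simp
    have hτV : τ = 2 * V := by rw [hV]; ring
    have hpos : V ≤ τ + y := by linarith [hyb'.1]
    have z1 := hp (s + ((x : ℂ) + y * I)) (by rw [hre]; linarith) (by
      rw [him, abs_of_nonneg (by linarith)]
      linarith)
    rw [him, abs_of_nonneg (by linarith)] at z1
    have z2 : (τ + y) ^ 3 ≤ (2 * T) ^ 3 := by
      refine pow_le_pow_left₀ (by linarith) ?_ 3
      linarith [hyb'.2]
    have z3 : ‖riemannZeta (s + ((x : ℂ) + y * I))‖ ≤ 8 * C1 * Real.exp (3 * L) := by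
      calc ‖riemannZeta (s + ((x : ℂ) + y * I))‖ ≤ C1 * (τ + y) ^ 3 := z1
        _ ≤ C1 * (2 * T) ^ 3 := mul_le_mul_of_nonneg_left z2 hC1.le
        _ = 8 * C1 * T ^ 3 := by ring
        _ = 8 * C1 * Real.exp (3 * L) := by rw [hT3]
    have z4 : M ^ x ≤ Real.exp (12 * L) :=
      (Real.rpow_le_rpow_of_exponent_le hM hx2).trans hM2
    have z5 : Real.exp (x ^ 2) ≤ Real.exp 4 := Real.exp_le_exp.2 (by nlinarith)
    have z6 : M ^ x * Real.exp (x ^ 2) * Real.exp (-y ^ 2)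
        ≤ Real.exp (12 * L) * Real.exp 4 * Real.exp (-y ^ 2) := by gcongr
    calc ‖riemannZeta (s + ((x : ℂ) + y * I))‖ * (M ^ x * Real.exp (x ^ 2) * Real.exp (-y ^ 2))
        ≤ (8 * C1 * Real.exp (3 * L)) * (Real.exp (12 * L) * Real.exp 4 * Real.exp (-y ^ 2)) :=
          mul_le_mul z3 z6 (by positivity) (by positivity)
      _ = 8 * C1 * Real.exp 4 * Real.exp (3 * L + 12 * L + -y ^ 2) := by
          rw [Real.exp_add, Real.exp_add]
          ring
      _ ≤ 8 * C1 * Real.exp 4 * 1 := by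
          refine mul_le_mul_of_nonneg_left ?_ (by positivity)
          rw [Real.exp_le_one_iff, hy2]
          nlinarith
      _ = 8 * C1 * Real.exp 4 := mul_one _
  have h2 := ct_shift (f := G) (a := a) (b := 2) (V := V) (M := 8 * C1 * Real.exp 4)
    (by linarith) (by linarith) hdiff (fun x hx1 hx2 => by
      refine ⟨hhor x V hx1 hx2 (Or.inl rfl), ?_⟩
      have := hhor x (-V) hx1 hx2 (Or.inr rfl)
      convert this using 3
      push_cast
      ring)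
  -- step 3: the new line
  have h3 : ‖∫ v in (-V)..V, G ((a : ℂ) + v * I)‖ ≤ (Real.exp 1 * M ^ (1 / 2 + η)) * Zt η V τ := by
    have e1 : ∀ v : ℝ, ‖G ((a : ℂ) + v * I)‖ ≤ (Real.exp 1 * M ^ (1 / 2 + η)) *
        (‖riemannZeta (((1 / 2 + η : ℝ) : ℂ) + (τ + v : ℝ) * I)‖ * Real.exp (-v ^ 2)) := by
      intro v
      rw [hGK, norm_mul, SB_K_norm a hM0]
      have e2 : s + ((a : ℂ) + v * I) = ((1 / 2 + η : ℝ) : ℂ) + (τ + v : ℝ) * I := by
        rw [hs, ha]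
        push_cast
        ring
      rw [e2]
      have e3 : M ^ a ≤ M ^ (1 / 2 + η) := Real.rpow_le_rpow_of_exponent_le hM (by rw [ha]; linarith)
      have e4 : Real.exp (a ^ 2) ≤ Real.exp 1 := Real.exp_le_exp.2 (by nlinarith)
      have e5 : M ^ a * Real.exp (a ^ 2) ≤ M ^ (1 / 2 + η) * Real.exp 1 := by gcongr
      calc ‖riemannZeta (((1 / 2 + η : ℝ) : ℂ) + (τ + v : ℝ) * I)‖ *
            (M ^ a * Real.exp (a ^ 2) * Real.exp (-v ^ 2))
          = (M ^ a * Real.exp (a ^ 2)) *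
            (‖riemannZeta (((1 / 2 + η : ℝ) : ℂ) + (τ + v : ℝ) * I)‖ * Real.exp (-v ^ 2)) := by ring
        _ ≤ (M ^ (1 / 2 + η) * Real.exp 1) *
            (‖riemannZeta (((1 / 2 + η : ℝ) : ℂ) + (τ + v : ℝ) * I)‖ * Real.exp (-v ^ 2)) :=
            mul_le_mul_of_nonneg_right e5 (by positivity)
        _ = _ := by ring
    have hle : -V ≤ V := by linarith
    refine (intervalIntegral.norm_integral_le_of_norm_le hle
      (Filter.Eventually.of_forall (fun v _ => e1 v)) ?_).trans ?_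
    · refine Continuous.intervalIntegrable ?_ _ _
      exact continuous_const.mul ((SB_zt_cont η τ hη1).mul (by fun_prop))
    · rw [intervalIntegral.integral_const_mul]
      rfl
  -- conclusion
  have hZ0 := SB_zt_nonneg η V τ hV0
  have hsqrt : 1 ≤ Real.sqrt Real.pi := by
    rw [Real.one_le_sqrt]
    linarith [Real.pi_gt_three]
  have h4 : ‖SS M z τ‖ ≤ ‖∫ v : ℝ, riemannZeta (s + (((2 : ℝ) : ℂ) + v * I)) * SB_K M 2 v‖ := by
    rw [hrep, norm_mul, Complex.norm_real, Real.norm_of_nonneg (by linarith)]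
    exact le_mul_of_one_le_left (norm_nonneg _) hsqrt
  have h5 : ‖∫ v in (-V)..V, riemannZeta (s + (((2 : ℝ) : ℂ) + v * I)) * SB_K M 2 v‖
      ≤ ‖∫ v in (-V)..V, G ((a : ℂ) + v * I)‖ + 2 * (2 - a) * (8 * C1 * Real.exp 4) := by
    have e1 : (∫ v in (-V)..V, riemannZeta (s + (((2 : ℝ) : ℂ) + v * I)) * SB_K M 2 v)
        = ∫ v in (-V)..V, G (((2 : ℝ) : ℂ) + v * I) := rfl
    rw [e1]
    have e2 := norm_sub_norm_le (∫ v in (-V)..V, G (((2 : ℝ) : ℂ) + v * I))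
      (∫ v in (-V)..V, G ((a : ℂ) + v * I))
    linarith
  have h6 : 2 * (2 - a) * (8 * C1 * Real.exp 4) ≤ 40 * C1 * Real.exp 4 := by
    have : 2 * (2 - a) ≤ 5 := by linarith
    calc 2 * (2 - a) * (8 * C1 * Real.exp 4) ≤ 5 * (8 * C1 * Real.exp 4) :=
          mul_le_mul_of_nonneg_right this (by positivity)
      _ = 40 * C1 * Real.exp 4 := by ring
  have hMp : 1 ≤ M ^ (1 / 2 + η) := Real.one_le_rpow hM (by linarith)
  have h7 : ‖SS M z τ‖ ≤ (3 * (Real.exp C0 * Real.exp 4) + 40 * C1 * Real.exp 4) +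
      (Real.exp 1 * M ^ (1 / 2 + η)) * Zt η V τ := by linarith
  refine h7.trans ?_
  set D : ℝ := 3 * (Real.exp C0 * Real.exp 4) + 40 * C1 * Real.exp 4 with hD
  have hD0 : 0 ≤ D := by positivity
  have f1 : D * 1 ≤ D * M ^ (1 / 2 + η) := mul_le_mul_of_nonneg_left hMp hD0
  have f2 : 0 ≤ D * M ^ (1 / 2 + η) * Zt η V τ := by positivity
  have f3 : 0 ≤ Real.exp 1 * M ^ (1 / 2 + η) := by positivity
  nlinarith

theorem SB_symm (M z τ : ℝ) : ‖SS M z (-τ)‖ = ‖SS M z τ‖ := by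
  have h : SS M z (-τ) = (starRingEnd ℂ) (SS M z τ) := by
    unfold SS
    rw [Complex.conj_tsum]
    refine tsum_congr (fun n => ?_)
    rw [map_mul, Complex.conj_ofReal]
    congr 1
    have h1 : -((z : ℂ) + ((-τ : ℝ) : ℂ) * I) = (starRingEnd ℂ) (-((z : ℂ) + τ * I)) := by
      simp
    rw [h1, Complex.cpow_conj, Complex.conj_natCast]
    rw [Complex.natCast_arg]
    exact Real.pi_pos.ne
  rw [h, Complex.norm_conj]

theorem SS_zeta (η : ℝ) (hη : 0 < η) (hη1 : η ≤ 1 / 8) : ∃ C T₀ : ℝ, 0 < C ∧ ∀ T : ℝ, T₀ ≤ T →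
    ∀ M z τ : ℝ, 1 ≤ M → M ≤ T ^ (6 : ℕ) → 0 ≤ z → z ≤ 1 → Real.log T ≤ |τ| → |τ| ≤ T →
      ‖SS M z τ‖ ≤ C * M ^ (1 / 2 + η) * (1 + Zt η (|τ| / 2) |τ|) := by
  obtain ⟨C, T₀, hC, _, h⟩ := SB_pos η hη hη1
  refine ⟨C, T₀, hC, fun T hT M z τ hM hMT hz hz1 h1 h2 => ?_⟩
  have h3 : ‖SS M z τ‖ = ‖SS M z |τ|‖ := by
    rcases abs_choice τ with h4 | h4
    · rw [h4]
    · rw [h4, SB_symm]
  rw [h3]
  exact h T hT M z |τ| hM hMT hz hz1 h1 h2

end Pool.Agent.helper78.ED
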