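import Pool.Agent.helper78.ED.Defs2
import Pool.Agent.helper99.ED.SB
import Pool.Agent.helper74.DM.XA

/-!
Module RF of project ED (second form): reflection of the smooth zeta sum.
-/

set_option autoImplicit false

open Complex MeasureTheory

namespace Pool.Agent.helper78.ED

open Pool.Agent.helper84.DM

/-- the partial sum of the zeta series -/
noncomputable def RF_P (K : ℕ) (u : ℂ) : ℂ := ∑ n ∈ Finset.Icc 1 K, (n : ℂ) ^ (-u)

theorem RF_P_diff (K : ℕ) : Differentiable ℂ (RF_P K) := by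
  intro u
  unfold RF_P
  refine DifferentiableAt.fun_sum (fun n hn => ?_)
  have hn1 : 1 ≤ n := (Finset.mem_Icc.mp hn).1
  have hn0 : (n : ℂ) ≠ 0 := by
    have : n ≠ 0 := by omega
    exact_mod_cast this
  exact DifferentiableAt.const_cpow (by fun_prop) (Or.inl hn0)

theorem RF_P_norm (K : ℕ) (u : ℂ) (hu : 0 ≤ u.re) : ‖RF_P K u‖ ≤ K := by
  unfold RF_P
  refine (norm_sum_le _ _).trans ?_
  have h1 : ∀ n ∈ Finset.Icc 1 K, ‖(n : ℂ) ^ (-u)‖ ≤ 1 := by
    intro n hn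
    have hn1 : 1 ≤ n := (Finset.mem_Icc.mp hn).1
    rw [Complex.norm_natCast_cpow_of_pos (by omega), neg_re]
    exact Real.rpow_le_one_of_one_le_of_nonpos (by exact_mod_cast hn1) (by linarith)
  refine (Finset.sum_le_sum h1).trans ?_
  simp

/-- one step of the telescoping sum -/
theorem RF_step (m : ℕ) (hm : 1 ≤ m) : (((m + 1 : ℕ) : ℝ)) ^ (-(3 / 2 : ℝ)) ≤
    2 * (1 / Real.sqrt m - 1 / Real.sqrt ((m + 1 : ℕ) : ℝ)) := by
  have hm0 : (0 : ℝ) < m := by exact_mod_cast hm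
  set a : ℝ := Real.sqrt m with ha
  set b : ℝ := Real.sqrt ((m + 1 : ℕ) : ℝ) with hb
  have ha0 : 0 < a := Real.sqrt_pos.2 hm0
  have hb0 : 0 < b := Real.sqrt_pos.2 (by exact_mod_cast Nat.succ_pos m)
  have ha2 : a ^ 2 = m := Real.sq_sqrt hm0.le
  have hb2 : b ^ 2 = m + 1 := by
    rw [hb, Real.sq_sqrt (by positivity)]
    push_cast
    ring
  have hab : a ≤ b := Real.sqrt_le_sqrt (by push_cast; linarith)
  have h1 : (((m + 1 : ℕ) : ℝ)) ^ (-(3 / 2 : ℝ)) = 1 / b ^ 3 := by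
    rw [Real.rpow_neg (by positivity), hb, Real.sqrt_eq_rpow, ← Real.rpow_natCast,
      ← Real.rpow_mul (by positivity), one_div]
    norm_num
  rw [h1]
  have h2 : 1 / a - 1 / b = (b - a) / (a * b) := by
    field_simp
  have h3 : (b - a) * (a + b) = 1 := by
    calc (b - a) * (a + b) = b ^ 2 - a ^ 2 := by ring
      _ = 1 := by rw [hb2, ha2]; ring
  rw [h2, ← mul_div_assoc, div_le_div_iff₀ (by positivity) (by positivity)]
  have h4 : 0 ≤ b - a := by linarith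
  have h5 : 1 * (a * b) = (b - a) * (a + b) * (a * b) := by rw [h3]
  rw [h5]
  have h6 : (a + b) * (a * b) ≤ 2 * b ^ 3 := by
    have e1 : a * b ≤ b * b := mul_le_mul_of_nonneg_right hab hb0.le
    have e2 : a + b ≤ 2 * b := by linarith
    calc (a + b) * (a * b) ≤ (2 * b) * (b * b) := mul_le_mul e2 e1 (by positivity) (by positivity)
      _ = 2 * b ^ 3 := by ring
  calc (b - a) * (a + b) * (a * b) = (b - a) * ((a + b) * (a * b)) := by ring
    _ ≤ (b - a) * (2 * b ^ 3) := mul_le_mul_of_nonneg_left h6 h4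
    _ = 2 * (b - a) * b ^ 3 := by ring

theorem RF_sum (K N : ℕ) (hK : 1 ≤ K) :
    ∑ n ∈ Finset.range N, (((n + K + 1 : ℕ) : ℝ)) ^ (-(3 / 2 : ℝ)) ≤
      2 * (1 / Real.sqrt K - 1 / Real.sqrt ((N + K : ℕ) : ℝ)) := by
  induction N with
  | zero => simp
  | succ N ih =>
    rw [Finset.sum_range_succ]
    have h1 := RF_step (N + K) (by omega)
    have e : N + 1 + K = N + K + 1 := by ring
    rw [e]
    linarith

/-- the tail of the zeta series -/
theorem RF_tail (k : ℕ) (hk : 1 ≤ k) (K : ℕ) (hK : 1 ≤ K) (u : ℂ) (hu : u.re = k + 1 / 2) :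
    ‖riemannZeta u - RF_P K u‖ ≤ 2 * (K : ℝ) ^ (-((k : ℝ) - 1 / 2)) := by
  have hk1 : (1 : ℝ) ≤ k := by exact_mod_cast hk
  have hK0 : (0 : ℝ) < K := by exact_mod_cast hK
  have hre : 1 < u.re := by rw [hu]; linarith
  set f : ℕ → ℂ := fun n => 1 / ((n : ℂ) + 1) ^ u with hf
  have hnorm : ∀ n : ℕ, ‖f n‖ = (((n + 1 : ℕ) : ℝ)) ^ (-((k : ℝ) + 1 / 2)) := by
    intro n
    have e : ((n : ℂ) + 1) = ((n + 1 : ℕ) : ℂ) := by push_cast; ring
    rw [hf]
    simp only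
    rw [e, norm_div, norm_one, Complex.norm_natCast_cpow_of_pos (by omega), hu,
      Real.rpow_neg (by positivity), one_div]
  have hsumm : Summable f := by
    refine Summable.of_norm ?_
    simp only [hnorm]
    have h1 : Summable (fun n : ℕ => (n : ℝ) ^ (-((k : ℝ) + 1 / 2))) := by
      rw [Real.summable_nat_rpow]
      linarith
    exact (summable_nat_add_iff 1).2 h1
  have h0 : riemannZeta u = ∑' n : ℕ, f n := zeta_eq_tsum_one_div_nat_add_one_cpow hre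
  have h1 := hsumm.sum_add_tsum_nat_add K
  have h2 : RF_P K u = ∑ n ∈ Finset.range K, f n := by
    unfold RF_P
    have e0 : Finset.Icc 1 K = Finset.Ico 1 (K + 1) := by
      ext n
      simp only [Finset.mem_Icc, Finset.mem_Ico]
      omega
    rw [e0, Finset.sum_Ico_eq_sum_range]
    refine Finset.sum_congr (by simp) (fun n _ => ?_)
    rw [hf]
    simp only
    rw [Complex.cpow_neg, one_div]
    congr 2
    push_cast
    ring
  have h3 : riemannZeta u - RF_P K u = ∑' n : ℕ, f (n + K) := by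
    rw [h0, h2, ← h1]
    ring
  rw [h3]
  have hsn : Summable (fun n : ℕ => ‖f (n + K)‖) := by
    have : Summable (fun n : ℕ => ‖f n‖) := hsumm.norm
    exact (summable_nat_add_iff K).2 this
  refine (norm_tsum_le_tsum_norm hsn).trans ?_
  refine Real.tsum_le_of_sum_range_le (fun n => norm_nonneg _) (fun N => ?_)
  have h4 : ∀ n ∈ Finset.range N, ‖f (n + K)‖ ≤
      (K : ℝ) ^ (-((k : ℝ) - 1)) * (((n + K + 1 : ℕ) : ℝ)) ^ (-(3 / 2 : ℝ)) := by
    intro n _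
    rw [hnorm]
    have hpos : (0 : ℝ) < ((n + K + 1 : ℕ) : ℝ) := by positivity
    have e1 : -((k : ℝ) + 1 / 2) = -((k : ℝ) - 1) + -(3 / 2 : ℝ) := by ring
    rw [e1, Real.rpow_add hpos]
    refine mul_le_mul_of_nonneg_right ?_ (by positivity)
    refine Real.rpow_le_rpow_of_nonpos hK0 ?_ (by linarith)
    push_cast
    have : (0 : ℝ) ≤ n := by positivity
    linarith
  refine (Finset.sum_le_sum h4).trans ?_
  rw [← Finset.mul_sum]
  have h5 : ∑ n ∈ Finset.range N, (((n + K + 1 : ℕ) : ℝ)) ^ (-(3 / 2 : ℝ)) ≤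
      2 * (K : ℝ) ^ (-(1 / 2 : ℝ)) := by
    refine (RF_sum K N hK).trans ?_
    have e2 : (K : ℝ) ^ (-(1 / 2 : ℝ)) = 1 / Real.sqrt K := by
      rw [Real.rpow_neg hK0.le, Real.sqrt_eq_rpow, one_div, one_div]
    rw [e2]
    have : 0 ≤ 1 / Real.sqrt ((N + K : ℕ) : ℝ) := by positivity
    linarith
  calc (K : ℝ) ^ (-((k : ℝ) - 1)) * ∑ n ∈ Finset.range N, (((n + K + 1 : ℕ) : ℝ)) ^ (-(3 / 2 : ℝ))
      ≤ (K : ℝ) ^ (-((k : ℝ) - 1)) * (2 * (K : ℝ) ^ (-(1 / 2 : ℝ))) :=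
        mul_le_mul_of_nonneg_left h5 (by positivity)
    _ = 2 * ((K : ℝ) ^ (-((k : ℝ) - 1)) * (K : ℝ) ^ (-(1 / 2 : ℝ))) := by ring
    _ = 2 * (K : ℝ) ^ (-((k : ℝ) - 1 / 2)) := by
      rw [← Real.rpow_add hK0]
      congr 2
      ring

/-- the values on the critical line -/
theorem RF_P_DK (K : ℕ) (y : ℝ) : ‖RF_P K ((1 / 2 : ℂ) + ((-y : ℝ) : ℂ) * I)‖ = DK K y := by
  have h : RF_P K ((1 / 2 : ℂ) + ((-y : ℝ) : ℂ) * I) =
      (starRingEnd ℂ) (∑ n ∈ Finset.Icc 1 K, (n : ℂ) ^ (-((1 / 2 : ℂ) + y * I))) := by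
    unfold RF_P
    rw [map_sum]
    refine Finset.sum_congr rfl (fun n _ => ?_)
    have h1 : -((1 / 2 : ℂ) + ((-y : ℝ) : ℂ) * I) = (starRingEnd ℂ) (-((1 / 2 : ℂ) + y * I)) := by
      have e : (starRingEnd ℂ) (1 / 2 : ℂ) = 1 / 2 := by
        rw [show (1 / 2 : ℂ) = ((1 / 2 : ℝ) : ℂ) by push_cast; ring, Complex.conj_ofReal]
      rw [map_neg, map_add, map_mul, Complex.conj_ofReal, Complex.conj_I, e]
      push_cast
      ring
    rw [h1, Complex.cpow_conj, Complex.conj_natCast]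
    rw [Complex.natCast_arg]
    exact Real.pi_pos.ne
  rw [h, Complex.norm_conj]
  rfl

theorem RF_DK_cont (K : ℕ) (τ : ℝ) : Continuous (fun v : ℝ => DK K (τ + v)) := by
  have h1 : ∀ v : ℝ, DK K (τ + v) = ‖RF_P K ((1 / 2 : ℂ) + ((-(τ + v) : ℝ) : ℂ) * I)‖ := fun v =>
    (RF_P_DK K (τ + v)).symm
  simp only [h1]
  refine Continuous.norm ((RF_P_diff K).continuous.comp ?_)
  fun_prop

theorem RF_Dt_nonneg (K : ℕ) (V τ : ℝ) (hV : 0 ≤ V) : 0 ≤ Dt K V τ := by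
  unfold Dt
  refine intervalIntegral.integral_nonneg (by linarith) (fun v _ => ?_)
  exact mul_nonneg (norm_nonneg _) (Real.exp_pos _).le

theorem RF_X_cont {c : ℝ} (hc : 0 < c) (τ : ℝ) :
    Continuous fun v : ℝ => X ((c : ℂ) + ((-(τ + v) : ℝ) : ℂ) * I) := by
  rw [continuous_iff_continuousAt]
  intro v
  have h1 : ContinuousAt X ((c : ℂ) + ((-(τ + v) : ℝ) : ℂ) * I) := by
    apply (X_diff _ _).continuousAt
    simpa using hc
  exact ContinuousAt.comp (f := fun v : ℝ => (c : ℂ) + ((-(τ + v) : ℝ) : ℂ) * I) h1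
    (by fun_prop : Continuous fun v : ℝ => (c : ℂ) + ((-(τ + v) : ℝ) : ℂ) * I).continuousAt

theorem RF_pos (k : ℕ) (hk : 1 ≤ k)
    (hl : ∃ C : ℝ, 0 < C ∧ ∀ y : ℝ,
      ‖X (((k + 1 / 2 : ℝ) : ℂ) + y * I)‖ ≤ C * (1 + |y|) ^ k)
    (hst : ∃ C : ℝ, 0 < C ∧ ∀ s : ℂ, 1 / 2 ≤ s.re → s.re ≤ k + 1 / 2 →
      ‖X s‖ ≤ C * (1 + |s.im|) ^ (k + 2))
    (hz : ∃ C : ℝ, 0 < C ∧ ∀ s : ℂ, -(k : ℝ) ≤ s.re → 1 ≤ |s.im| →
      ‖riemannZeta s‖ ≤ C * |s.im| ^ (k + 3)) : ∃ C T₀ : ℝ, 0 < C ∧ 1 ≤ T₀ ∧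
    ∀ T : ℝ, T₀ ≤ T →
    ∀ M z τ : ℝ, 1 ≤ M → M ≤ T ^ (6 : ℕ) → 0 ≤ z → z ≤ 1 → Real.log T ≤ τ → τ ≤ T →
    ∀ K : ℕ, 1 ≤ K → (K : ℝ) ≤ T ^ (6 : ℕ) →
      ‖SS M z τ‖ ≤ C * (1 + T ^ k * (M * K) ^ (-((k : ℝ) - 1 / 2)) +
        M ^ (1 / 2 : ℝ) * Dt K (τ / 2) τ) := by
  obtain ⟨C0, hC0, hr⟩ := zeta_right
  obtain ⟨Cl, hCl, hl⟩ := hl
  obtain ⟨Cs, hCs, hst⟩ := hst
  obtain ⟨Cz, hCz, hz⟩ := hz
  set E0 : ℝ := Real.exp (((k : ℝ) + 2) ^ 2 + 4) with hE0
  have hE0p : 0 < E0 := Real.exp_pos _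
  set B1 : ℝ := Cz * 2 ^ (k + 3) * E0 with hB1
  set B2 : ℝ := Cs * 3 ^ (k + 2) * E0 with hB2
  set A1 : ℝ := 3 * (Real.exp C0 * Real.exp 4) with hA1
  set A2 : ℝ := 2 * ((k : ℝ) + 3) * B1 with hA2
  set A3 : ℝ := 2 * (k : ℝ) * B2 with hA3
  set A4 : ℝ := 6 * (Cl * 3 ^ k * E0) with hA4
  have hk1 : (1 : ℝ) ≤ k := by exact_mod_cast hk
  have hB1p : 0 < B1 := by positivity
  have hB2p : 0 < B2 := by positivity
  have hA1p : 0 < A1 := by positivity
  have hA2p : 0 < A2 := by positivity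
  have hA3p : 0 < A3 := by positivity
  have hA4p : 0 < A4 := by positivity
  refine ⟨A1 + A2 + A3 + A4 + Real.exp 1, Real.exp (8 * ((k : ℝ) + 30)),
    by positivity, Real.one_le_exp (by positivity), ?_⟩
  intro T hT M z τ hM hMT hz0 hz1 hτ1 hτ2 K hK hKT
  have hT0 : 0 < T := (Real.exp_pos _).trans_le hT
  have hM0 : 0 < M := by linarith
  have hK0 : (0 : ℝ) < K := by exact_mod_cast hK
  set L : ℝ := Real.log T with hL
  have hL0 : 8 * ((k : ℝ) + 30) ≤ L := by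
    rw [hL, Real.le_log_iff_exp_le hT0]
    exact hT
  have hTL : T = Real.exp L := (Real.exp_log hT0).symm
  have hT1 : 1 ≤ T := (Real.one_le_exp (by positivity)).trans hT
  set V : ℝ := τ / 2 with hV
  have hτV : τ = 2 * V := by rw [hV]; ring
  have hV0 : 1 ≤ V := by rw [hV]; linarith
  -- powers of T against the Gaussian
  set G0 : ℝ := Real.exp (-V ^ 2 / 2) with hG0
  have hG0p : 0 < G0 := Real.exp_pos _
  have hpow : ∀ j : ℕ, j ≤ k + 30 → T ^ j * G0 ≤ 1 := by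
    intro j hj
    have hj' : (j : ℝ) ≤ (k : ℝ) + 30 := by exact_mod_cast hj
    rw [hG0, hTL, ← Real.exp_nat_mul, ← Real.exp_add, Real.exp_le_one_iff]
    have h1 : L ≤ 2 * V := by rw [← hτV]; exact hτ1
    have hLp : 0 ≤ L := by linarith
    have h2 : L ^ 2 ≤ 4 * V ^ 2 := by
      calc L ^ 2 ≤ (2 * V) ^ 2 := pow_le_pow_left₀ hLp h1 2
        _ = 4 * V ^ 2 := by ring
    have h3 : 8 * ((k : ℝ) + 30) * L ≤ L * L := mul_le_mul_of_nonneg_right hL0 hLp
    have h4 : (j : ℝ) * L ≤ ((k : ℝ) + 30) * L := mul_le_mul_of_nonneg_right hj' hLp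
    rw [← pow_two] at h3
    linarith
  have hG1 : Real.exp (-V ^ 2) ≤ G0 := Real.exp_le_exp.2 (by linarith [sq_nonneg V])
  have hM2 : ∀ x : ℝ, x ≤ 2 → M ^ x ≤ T ^ 12 := by
    intro x hx
    calc M ^ x ≤ M ^ (2 : ℝ) := Real.rpow_le_rpow_of_exponent_le hM hx
      _ = M ^ 2 := Real.rpow_two _
      _ ≤ (T ^ (6 : ℕ)) ^ 2 := pow_le_pow_left₀ hM0.le hMT 2
      _ = T ^ 12 := by ring
  set s : ℂ := (z : ℂ) + τ * I with hs
  have hsre : s.re = z := by rw [hs]; simp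
  have hsim : s.im = τ := by rw [hs]; simp
  have hrep := SB_repr hM0 s (by rw [hsre]; exact hz0)
  have hSS : SS M z τ = ∑' n : ℕ, (wg M n : ℂ) * (n : ℂ) ^ (-s) := rfl
  rw [← hSS] at hrep
  set G : ℂ → ℂ := fun w => riemannZeta (s + w) * ((M : ℂ) ^ w * Complex.exp (w ^ 2)) with hG
  have hGK : ∀ c v : ℝ, G ((c : ℂ) + v * I) = riemannZeta (s + ((c : ℂ) + v * I)) * SB_K M c v := by
    intro c v
    rfl
  set H : ℂ → ℂ := fun w => X (1 - (s + w)) * RF_P K (1 - (s + w)) *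
    ((M : ℂ) ^ w * Complex.exp (w ^ 2)) with hH
  have hHK : ∀ c v : ℝ, H ((c : ℂ) + v * I) = X (1 - (s + ((c : ℂ) + v * I))) *
      RF_P K (1 - (s + ((c : ℂ) + v * I))) * SB_K M c v := by
    intro c v
    rfl
  have hu : ∀ c v : ℝ, 1 - (s + ((c : ℂ) + v * I)) =
      ((1 - z - c : ℝ) : ℂ) + ((-(τ + v) : ℝ) : ℂ) * I := by
    intro c v
    rw [hs]
    push_cast
    ring
  have hMdiff : ∀ w : ℂ, DifferentiableAt ℂ (fun w : ℂ => (M : ℂ) ^ w * Complex.exp (w ^ 2)) w := by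
    intro w
    refine DifferentiableAt.mul ?_ (by fun_prop)
    refine DifferentiableAt.const_cpow (by fun_prop) (Or.inl ?_)
    exact_mod_cast hM0.ne'
  -- step 1: tails
  have hg2 : Continuous (fun v : ℝ => riemannZeta (s + (((2 : ℝ) : ℂ) + v * I)) * SB_K M 2 v) := by
    refine Continuous.mul ?_ (SB_K_cont 2 hM0)
    rw [continuous_iff_continuousAt]
    intro v
    have hne : s + (((2 : ℝ) : ℂ) + v * I) ≠ 1 := by
      intro h
      have := congrArg Complex.re h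
      simp [hsre] at this
      linarith
    have h1 : ContinuousAt (fun v : ℝ => s + (((2 : ℝ) : ℂ) + v * I)) v := by fun_prop
    exact ContinuousAt.comp (f := fun v : ℝ => s + (((2 : ℝ) : ℂ) + v * I))
      (differentiableAt_riemannZeta hne).continuousAt h1
  have hgB : ∀ v : ℝ, ‖riemannZeta (s + (((2 : ℝ) : ℂ) + v * I)) * SB_K M 2 v‖
      ≤ (Real.exp C0 * (M ^ (2 : ℝ) * Real.exp ((2 : ℝ) ^ 2))) * Real.exp (-v ^ 2) := by
    intro v
    rw [norm_mul, SB_K_norm 2 hM0, mul_assoc (Real.exp C0)]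
    refine mul_le_mul_of_nonneg_right ?_ (by positivity)
    refine (hr _ ?_).2
    simp only [add_re, ofReal_re, mul_re, I_re, mul_zero, ofReal_im, I_im, mul_one, sub_self, hsre]
    linarith
  have h1 := SB_tail hg2 (by positivity) (by linarith : (0 : ℝ) ≤ V) hgB
  have h1' : 3 * (Real.exp C0 * (M ^ (2 : ℝ) * Real.exp ((2 : ℝ) ^ 2))) * Real.exp (-V ^ 2 / 2)
      ≤ A1 := by
    have e1 : M ^ (2 : ℝ) * G0 ≤ 1 := by
      calc M ^ (2 : ℝ) * G0 ≤ T ^ 12 * G0 :=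
            mul_le_mul_of_nonneg_right (hM2 2 le_rfl) hG0p.le
        _ ≤ 1 := hpow 12 (by omega)
    have e2 : Real.exp ((2 : ℝ) ^ 2) = Real.exp 4 := by norm_num
    rw [e2, ← hG0]
    calc 3 * (Real.exp C0 * (M ^ (2 : ℝ) * Real.exp 4)) * G0
        = A1 * (M ^ (2 : ℝ) * G0) := by rw [hA1]; ring
      _ ≤ A1 * 1 := mul_le_mul_of_nonneg_left e1 hA1p.le
      _ = A1 := mul_one _
  -- step 2: shift of the zeta function
  set a : ℝ := 1 / 2 - k - z with ha
  have ha1 : -((k : ℝ) + 1) ≤ a := by rw [ha]; linarith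
  have ha2 : a ≤ -(1 / 2) := by rw [ha]; linarith
  have hdiff : ∀ w : ℂ, a ≤ w.re → w.re ≤ 2 → |w.im| ≤ V → DifferentiableAt ℂ G w := by
    intro w _ _ hw3
    have hne : s + w ≠ 1 := by
      intro h
      have := congrArg Complex.im h
      rw [add_im, hsim, one_im] at this
      have h3 := abs_le.1 hw3
      linarith [h3.1]
    rw [hG]
    refine DifferentiableAt.mul ?_ (hMdiff w)
    exact DifferentiableAt.comp w (differentiableAt_riemannZeta hne) (by fun_prop)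
  have hx2 : ∀ x : ℝ, a ≤ x → x ≤ 2 → Real.exp (x ^ 2) ≤ E0 := by
    intro x hx1 hx2
    rw [hE0]
    refine Real.exp_le_exp.2 ?_
    have h1 : x ≤ (k : ℝ) + 2 := by linarith
    have h2 : -((k : ℝ) + 2) ≤ x := by linarith
    have h3 := sq_le_sq' h2 h1
    linarith
  have hhor : ∀ (x y : ℝ), a ≤ x → x ≤ 2 → (y = V ∨ y = -V) → ‖G ((x : ℂ) + y * I)‖ ≤ B1 := by
    intro x y hx1 hx2' hy
    have hy2 : y ^ 2 = V ^ 2 := by rcases hy with h | h <;> rw [h]; ring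
    have hyb : |y| ≤ V := by
      rcases hy with h | h
      · rw [h, abs_of_nonneg (by linarith)]
      · rw [h, abs_neg, abs_of_nonneg (by linarith)]
    have hyb' := abs_le.1 hyb
    rw [hGK, norm_mul, SB_K_norm x hM0]
    have him : (s + ((x : ℂ) + y * I)).im = τ + y := by
      rw [add_im, hsim]
      simp
    have hre : (s + ((x : ℂ) + y * I)).re = z + x := by
      rw [add_re, hsre]
      simp
    have hpos : V ≤ τ + y := by linarith [hyb'.1]
    have z1 := hz (s + ((x : ℂ) + y * I)) (by rw [hre]; linarith) (by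
      rw [him, abs_of_nonneg (by linarith)]
      linarith)
    rw [him, abs_of_nonneg (by linarith)] at z1
    have z2 : (τ + y) ^ (k + 3) ≤ (2 * T) ^ (k + 3) := by
      refine pow_le_pow_left₀ (by linarith) ?_ _
      linarith [hyb'.2]
    have z3 : ‖riemannZeta (s + ((x : ℂ) + y * I))‖ ≤ Cz * (2 ^ (k + 3) * T ^ (k + 3)) := by
      rw [← mul_pow]
      exact z1.trans (mul_le_mul_of_nonneg_left z2 hCz.le)
    have z4 := hM2 x hx2'
    have z5 := hx2 x hx1 hx2'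
    have z6 : M ^ x * Real.exp (x ^ 2) * Real.exp (-y ^ 2) ≤ T ^ 12 * E0 * G0 := by
      have z7 : Real.exp (-y ^ 2) ≤ G0 := by rw [hy2]; exact hG1
      gcongr
    calc ‖riemannZeta (s + ((x : ℂ) + y * I))‖ * (M ^ x * Real.exp (x ^ 2) * Real.exp (-y ^ 2))
        ≤ (Cz * (2 ^ (k + 3) * T ^ (k + 3))) * (T ^ 12 * E0 * G0) :=
          mul_le_mul z3 z6 (by positivity) (by positivity)
      _ = B1 * (T ^ (k + 15) * G0) := by
          rw [hB1, show k + 15 = (k + 3) + 12 by ring, pow_add T (k + 3) 12]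
          ring
      _ ≤ B1 * 1 := mul_le_mul_of_nonneg_left (hpow _ (by omega)) hB1p.le
      _ = B1 := mul_one _
  have h2 := ct_shift (f := G) (a := a) (b := 2) (V := V) (M := B1)
    (by linarith) (by linarith) hdiff (fun x hx1 hx2 => by
      refine ⟨hhor x V hx1 hx2 (Or.inl rfl), ?_⟩
      have := hhor x (-V) hx1 hx2 (Or.inr rfl)
      convert this using 3
      push_cast
      ring)
  -- step 3: the line a
  have hHc : ∀ c : ℝ, c ≤ 1 / 2 - z → Continuous (fun v : ℝ => H ((c : ℂ) + v * I)) := by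
    intro c hc
    simp only [hHK, hu]
    refine Continuous.mul (Continuous.mul ?_ ?_) (SB_K_cont c hM0)
    · exact RF_X_cont (by linarith) τ
    · exact (RF_P_diff K).continuous.comp (by fun_prop)
  have hGc : ContinuousOn (fun v : ℝ => G ((a : ℂ) + v * I)) (Set.uIcc (-V) V) := by
    rw [Set.uIcc_of_le (by linarith)]
    intro v hv
    have h3 : DifferentiableAt ℂ G ((a : ℂ) + v * I) := by
      refine hdiff _ (by simp) (by simp; linarith) ?_
      simp only [add_im, ofReal_im, mul_im, ofReal_re, I_im, mul_one, I_re, mul_zero, add_zero,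
        zero_add]
      exact abs_le.2 hv
    refine ContinuousAt.continuousWithinAt ?_
    exact ContinuousAt.comp (f := fun v : ℝ => ((a : ℂ) + v * I)) h3.continuousAt (by fun_prop)
  have hpt : ∀ v ∈ Set.Icc (-V) V, ‖G ((a : ℂ) + v * I) - H ((a : ℂ) + v * I)‖ ≤
      (2 * (Cl * 3 ^ k * E0) * (T ^ k * (M * K) ^ (-((k : ℝ) - 1 / 2)))) * Real.exp (-v ^ 2) := by
    intro v hv
    set u : ℂ := 1 - (s + ((a : ℂ) + v * I)) with hudef
    have hu' : u = ((k + 1 / 2 : ℝ) : ℂ) + ((-(τ + v) : ℝ) : ℂ) * I := by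
      rw [hudef, hu]
      congr 2
      rw [ha]
      ring
    have hure : u.re = k + 1 / 2 := by rw [hu']; simp
    have hz1' : riemannZeta (s + ((a : ℂ) + v * I)) = X u * riemannZeta u := by
      have h3 := zeta_one_sub u (by rw [hure]; positivity) (by
        intro h
        have := congrArg Complex.re h
        rw [hure, one_re] at this
        linarith)
      rw [← h3, hudef]
      congr 1
      ring
    have e1 : G ((a : ℂ) + v * I) - H ((a : ℂ) + v * I) =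
        X u * (riemannZeta u - RF_P K u) * SB_K M a v := by
      rw [hGK, hHK, hz1', ← hudef]
      ring
    rw [e1, norm_mul, norm_mul, SB_K_norm a hM0]
    have e2 : ‖X u‖ ≤ Cl * (3 ^ k * T ^ k) := by
      rw [hu']
      refine (hl _).trans (mul_le_mul_of_nonneg_left ?_ hCl.le)
      rw [← mul_pow]
      refine pow_le_pow_left₀ (by positivity) ?_ k
      rw [abs_neg, abs_of_nonneg (by linarith [hv.1])]
      linarith [hv.2]
    have e3 := RF_tail k hk K hK u hure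
    have e4 : M ^ a ≤ M ^ (-((k : ℝ) - 1 / 2)) :=
      Real.rpow_le_rpow_of_exponent_le hM (by rw [ha]; linarith)
    have e5 := hx2 a le_rfl (by linarith)
    have e6 : M ^ a * Real.exp (a ^ 2) ≤ M ^ (-((k : ℝ) - 1 / 2)) * E0 := by gcongr
    calc ‖X u‖ * ‖riemannZeta u - RF_P K u‖ * (M ^ a * Real.exp (a ^ 2) * Real.exp (-v ^ 2))
        ≤ (Cl * (3 ^ k * T ^ k)) * (2 * (K : ℝ) ^ (-((k : ℝ) - 1 / 2))) *
          (M ^ (-((k : ℝ) - 1 / 2)) * E0 * Real.exp (-v ^ 2)) := by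
          refine mul_le_mul (mul_le_mul e2 e3 (norm_nonneg _) (by positivity)) ?_ (by positivity)
            (by positivity)
          exact mul_le_mul_of_nonneg_right e6 (Real.exp_pos _).le
      _ = _ := by
          rw [Real.mul_rpow hM0.le hK0.le]
          ring
  set Q : ℝ := T ^ k * (M * K) ^ (-((k : ℝ) - 1 / 2)) with hQ
  have hQ0 : 0 ≤ Q := by positivity
  have h3 : ‖∫ v in (-V)..V, G ((a : ℂ) + v * I)‖ ≤ ‖∫ v in (-V)..V, H ((a : ℂ) + v * I)‖ +
      A4 * Q := by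
    have hHca := hHc a (by rw [ha]; linarith)
    have e1 : (∫ v in (-V)..V, G ((a : ℂ) + v * I)) = (∫ v in (-V)..V, H ((a : ℂ) + v * I)) +
        ∫ v in (-V)..V, (G ((a : ℂ) + v * I) - H ((a : ℂ) + v * I)) := by
      rw [intervalIntegral.integral_sub hGc.intervalIntegrable (hHca.intervalIntegrable _ _)]
      ring
    rw [e1]
    refine (norm_add_le _ _).trans (add_le_add le_rfl ?_)
    have e2 : ‖∫ v in (-V)..V, (G ((a : ℂ) + v * I) - H ((a : ℂ) + v * I))‖ ≤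
        ∫ v in (-V)..V, (2 * (Cl * 3 ^ k * E0) * Q) * Real.exp (-v ^ 2) := by
      refine intervalIntegral.norm_integral_le_of_norm_le (by linarith) ?_ ?_
      · refine Filter.Eventually.of_forall (fun v hv => hpt v ⟨hv.1.le, hv.2⟩)
      · exact Continuous.intervalIntegrable (by fun_prop) _ _
    refine e2.trans ?_
    rw [intervalIntegral.integral_const_mul]
    have e3 : ∫ v in (-V)..V, Real.exp (-v ^ 2) ≤ 3 := by
      rw [intervalIntegral.integral_of_le (by linarith)]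
      calc ∫ v in Set.Ioc (-V) V, Real.exp (-v ^ 2)
          ≤ ∫ v in Set.Ioc (-V) V, Real.exp (-v ^ 2 / 2) := by
            refine setIntegral_mono SB_gint.integrableOn SB_gint2.integrableOn (fun v => ?_)
            exact Real.exp_le_exp.2 (by linarith [sq_nonneg v])
        _ ≤ ∫ v : ℝ, Real.exp (-v ^ 2 / 2) := setIntegral_le_integral SB_gint2
            (Filter.Eventually.of_forall fun v => (Real.exp_pos _).le)
        _ ≤ 3 := SB_gauss2
    calc 2 * (Cl * 3 ^ k * E0) * Q * ∫ v in (-V)..V, Real.exp (-v ^ 2)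
        ≤ 2 * (Cl * 3 ^ k * E0) * Q * 3 := mul_le_mul_of_nonneg_left e3 (by positivity)
      _ = A4 * Q := by rw [hA4]; ring
  -- step 4: shift of the head
  set b : ℝ := 1 / 2 - z with hb
  have hb2 : b ≤ 2 := by rw [hb]; linarith
  have hdiffH : ∀ w : ℂ, a ≤ w.re → w.re ≤ b → |w.im| ≤ V → DifferentiableAt ℂ H w := by
    intro w _ hw2 _
    rw [hH]
    refine DifferentiableAt.mul (DifferentiableAt.mul ?_ ?_) (hMdiff w)
    · have h5 : DifferentiableAt ℂ X (1 - (s + w)) := by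
        apply X_diff
        rw [sub_re, one_re, add_re, hsre]
        linarith
      exact DifferentiableAt.comp (g := X) (f := fun w : ℂ => 1 - (s + w)) w h5 (by fun_prop)
    · exact DifferentiableAt.comp (g := RF_P K) (f := fun w : ℂ => 1 - (s + w)) w
        (RF_P_diff K _) (by fun_prop)
  have hhorH : ∀ (x y : ℝ), a ≤ x → x ≤ b → (y = V ∨ y = -V) → ‖H ((x : ℂ) + y * I)‖ ≤ B2 := by
    intro x y hx1 hxb hy
    have hy2 : y ^ 2 = V ^ 2 := by rcases hy with h | h <;> rw [h]; ring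
    have hyb : |y| ≤ V := by
      rcases hy with h | h
      · rw [h, abs_of_nonneg (by linarith)]
      · rw [h, abs_neg, abs_of_nonneg (by linarith)]
    have hyb' := abs_le.1 hyb
    rw [hHK, hu, norm_mul, norm_mul, SB_K_norm x hM0]
    have hure : ((((1 - z - x : ℝ) : ℂ) + ((-(τ + y) : ℝ) : ℂ) * I)).re = 1 - z - x := by simp
    have huim : ((((1 - z - x : ℝ) : ℂ) + ((-(τ + y) : ℝ) : ℂ) * I)).im = -(τ + y) := by simp
    have e1 := hst _ (by rw [hure]; linarith) (by rw [hure]; linarith) |>.trans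
      (mul_le_mul_of_nonneg_left (pow_le_pow_left₀ (b := 3 * T) (by positivity) (by
        rw [huim, abs_neg, abs_of_nonneg (by linarith [hyb'.1])]
        linarith [hyb'.2]) (k + 2)) hCs.le)
    have e2 := (RF_P_norm K (((1 - z - x : ℝ) : ℂ) + ((-(τ + y) : ℝ) : ℂ) * I)
      (by rw [hure]; linarith)).trans hKT
    have e3 := hM2 x (by linarith)
    have e4 := hx2 x hx1 (by linarith)
    have e5 : M ^ x * Real.exp (x ^ 2) * Real.exp (-y ^ 2) ≤ T ^ 12 * E0 * G0 := by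
      have z7 : Real.exp (-y ^ 2) ≤ G0 := by rw [hy2]; exact hG1
      gcongr
    calc _ ≤ (Cs * (3 * T) ^ (k + 2)) * T ^ 6 * (T ^ 12 * E0 * G0) :=
          mul_le_mul (mul_le_mul e1 e2 (norm_nonneg _) (by positivity)) e5 (by positivity)
            (by positivity)
      _ = B2 * (T ^ (k + 20) * G0) := by
          rw [hB2, mul_pow, show k + 20 = (k + 2) + 6 + 12 by ring, pow_add T (k + 2 + 6) 12,
            pow_add T (k + 2) 6]
          ring
      _ ≤ B2 * 1 := mul_le_mul_of_nonneg_left (hpow _ (by omega)) hB2p.le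
      _ = B2 := mul_one _
  have h4 := ct_shift (f := H) (a := a) (b := b) (V := V) (M := B2)
    (by rw [ha, hb]; linarith) (by linarith) hdiffH (fun x hx1 hx2 => by
      refine ⟨hhorH x V hx1 hx2 (Or.inl rfl), ?_⟩
      have := hhorH x (-V) hx1 hx2 (Or.inr rfl)
      convert this using 3
      push_cast
      ring)
  -- step 5: the critical line
  have h5 : ‖∫ v in (-V)..V, H ((b : ℂ) + v * I)‖ ≤
      (Real.exp 1 * M ^ (1 / 2 : ℝ)) * Dt K V τ := by
    have e1 : ∀ v : ℝ, ‖H ((b : ℂ) + v * I)‖ ≤ (Real.exp 1 * M ^ (1 / 2 : ℝ)) *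
        (DK K (τ + v) * Real.exp (-v ^ 2)) := by
      intro v
      rw [hHK, hu, norm_mul, norm_mul, SB_K_norm b hM0]
      have e2 : ((1 - z - b : ℝ) : ℂ) = (1 / 2 : ℂ) := by
        rw [hb]
        push_cast
        ring
      rw [e2, RF_P_DK, X_half, one_mul]
      have e3 : M ^ b ≤ M ^ (1 / 2 : ℝ) := Real.rpow_le_rpow_of_exponent_le hM (by rw [hb]; linarith)
      have e4 : Real.exp (b ^ 2) ≤ Real.exp 1 := by
        refine Real.exp_le_exp.2 ?_
        have e7 : b ^ 2 ≤ 1 ^ 2 := sq_le_sq' (by rw [hb]; linarith) (by rw [hb]; linarith)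
        linarith
      have e5 : M ^ b * Real.exp (b ^ 2) ≤ M ^ (1 / 2 : ℝ) * Real.exp 1 := by gcongr
      have e6 : 0 ≤ DK K (τ + v) := norm_nonneg _
      calc DK K (τ + v) * (M ^ b * Real.exp (b ^ 2) * Real.exp (-v ^ 2))
          = (M ^ b * Real.exp (b ^ 2)) * (DK K (τ + v) * Real.exp (-v ^ 2)) := by ring
        _ ≤ (M ^ (1 / 2 : ℝ) * Real.exp 1) * (DK K (τ + v) * Real.exp (-v ^ 2)) :=
            mul_le_mul_of_nonneg_right e5 (by positivity)
        _ = _ := by ring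
    refine (intervalIntegral.norm_integral_le_of_norm_le (by linarith)
      (Filter.Eventually.of_forall (fun v _ => e1 v)) ?_).trans ?_
    · refine Continuous.intervalIntegrable ?_ _ _
      exact continuous_const.mul ((RF_DK_cont K τ).mul (by fun_prop))
    · rw [intervalIntegral.integral_const_mul]
      rfl
  -- conclusion
  have hD0 := RF_Dt_nonneg K V τ (by linarith)
  have hsqrt : 1 ≤ Real.sqrt Real.pi := by
    rw [Real.one_le_sqrt]
    linarith [Real.pi_gt_three]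
  have g1 : ‖SS M z τ‖ ≤ ‖∫ v : ℝ, riemannZeta (s + (((2 : ℝ) : ℂ) + v * I)) * SB_K M 2 v‖ := by
    rw [hrep, norm_mul, Complex.norm_real, Real.norm_of_nonneg (by linarith)]
    exact le_mul_of_one_le_left (norm_nonneg _) hsqrt
  have g2 : ‖∫ v in (-V)..V, riemannZeta (s + (((2 : ℝ) : ℂ) + v * I)) * SB_K M 2 v‖
      ≤ ‖∫ v in (-V)..V, G ((a : ℂ) + v * I)‖ + A2 := by
    have e1 : (∫ v in (-V)..V, riemannZeta (s + (((2 : ℝ) : ℂ) + v * I)) * SB_K M 2 v)
        = ∫ v in (-V)..V, G (((2 : ℝ) : ℂ) + v * I) := rfl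
    rw [e1]
    have e2 := norm_sub_norm_le (∫ v in (-V)..V, G (((2 : ℝ) : ℂ) + v * I))
      (∫ v in (-V)..V, G ((a : ℂ) + v * I))
    have e3 : 2 * (2 - a) * B1 ≤ A2 := by
      rw [hA2]
      exact mul_le_mul_of_nonneg_right (by linarith) hB1p.le
    linarith
  have g3 : ‖∫ v in (-V)..V, H ((a : ℂ) + v * I)‖ ≤ ‖∫ v in (-V)..V, H ((b : ℂ) + v * I)‖ + A3 := by
    have e2 := norm_sub_norm_le (∫ v in (-V)..V, H ((a : ℂ) + v * I))
      (∫ v in (-V)..V, H ((b : ℂ) + v * I))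
    have e3 : 2 * (b - a) * B2 ≤ A3 := by
      rw [hA3]
      exact mul_le_mul_of_nonneg_right (by rw [ha, hb]; linarith) hB2p.le
    rw [norm_sub_rev] at h4
    linarith
  have g4 : ‖SS M z τ‖ ≤ A1 + A2 + A3 + A4 * Q + (Real.exp 1 * M ^ (1 / 2 : ℝ)) * Dt K V τ := by
    linarith
  refine g4.trans ?_
  set D : ℝ := M ^ (1 / 2 : ℝ) * Dt K V τ with hDdef
  have hD1 : 0 ≤ D := by positivity
  have f1 : (Real.exp 1 * M ^ (1 / 2 : ℝ)) * Dt K V τ = Real.exp 1 * D := by rw [hDdef]; ring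
  rw [f1]
  have f2 : 0 ≤ (A1 + A2 + A3 + A4) * D := by positivity
  have f3 : 0 ≤ (A1 + A2 + A3 + Real.exp 1) * Q := by positivity
  have f4 : 0 ≤ A4 + Real.exp 1 := by positivity
  have f5 : (A1 + A2 + A3 + A4 + Real.exp 1) * (1 + Q + D) =
      (A1 + A2 + A3 + A4 * Q + Real.exp 1 * D) + (A1 + A2 + A3 + A4) * D +
      (A1 + A2 + A3 + Real.exp 1) * Q + (A4 + Real.exp 1) := by ring
  rw [f5]
  linarith

theorem SS_refl_of (k : ℕ) (hk : 1 ≤ k)
    (hl : ∃ C : ℝ, 0 < C ∧ ∀ y : ℝ,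
      ‖X (((k + 1 / 2 : ℝ) : ℂ) + y * I)‖ ≤ C * (1 + |y|) ^ k)
    (hst : ∃ C : ℝ, 0 < C ∧ ∀ s : ℂ, 1 / 2 ≤ s.re → s.re ≤ k + 1 / 2 →
      ‖X s‖ ≤ C * (1 + |s.im|) ^ (k + 2))
    (hz : ∃ C : ℝ, 0 < C ∧ ∀ s : ℂ, -(k : ℝ) ≤ s.re → 1 ≤ |s.im| →
      ‖riemannZeta s‖ ≤ C * |s.im| ^ (k + 3)) : ∃ C T₀ : ℝ, 0 < C ∧ ∀ T : ℝ, T₀ ≤ T →
    ∀ M z τ : ℝ, 1 ≤ M → M ≤ T ^ (6 : ℕ) → 0 ≤ z → z ≤ 1 → Real.log T ≤ |τ| → |τ| ≤ T →
    ∀ K : ℕ, 1 ≤ K → (K : ℝ) ≤ T ^ (6 : ℕ) →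
      ‖SS M z τ‖ ≤ C * (1 + T ^ k * (M * K) ^ (-((k : ℝ) - 1 / 2)) +
        M ^ (1 / 2 : ℝ) * Dt K (|τ| / 2) |τ|) := by
  obtain ⟨C, T₀, hC, _, h⟩ := RF_pos k hk hl hst hz
  refine ⟨C, T₀, hC, fun T hT M z τ hM hMT hz hz1 h1 h2 K hK hKT => ?_⟩
  have h3 : ‖SS M z τ‖ = ‖SS M z |τ|‖ := by
    rcases abs_choice τ with h4 | h4
    · rw [h4]
    · rw [h4, SB_symm]
  rw [h3]
  exact h T hT M z |τ| hM hMT hz hz1 h1 h2 K hK hKT

end Pool.Agent.helper78.ED
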